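import Pool.Agent.helper58.CRO.SpecA

set_option autoImplicit false

open scoped Manifold ContDiff Topology ENNReal
open MeasureTheory Set

noncomputable section

namespace Pool.Agent.CRO

theorem KZP_det_pos {n : ℕ} {A : En n →L[ℝ] En n} (hA : PosDefOp A) : 0 < A.det := by
  have hS : (A : En n →ₗ[ℝ] En n).IsSymmetric := fun v w => hA.1 v w
  have hn : Module.finrank ℝ (En n) = n := finrank_euclideanSpace_fin
  have h1 : A.det = ∏ i, hS.eigenvalues hn i := by
    have := hS.det_eq_prod_eigenvalues hn
    simpa using this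
  rw [h1]
  refine Finset.prod_pos fun i _ => ?_
  have h2 := hS.apply_eigenvectorBasis hn i
  have h3 := hA.2 (hS.eigenvectorBasis hn i) (by
    intro h0
    have := (hS.eigenvectorBasis hn).norm_eq_one i
    rw [h0, norm_zero] at this
    exact one_ne_zero this.symm)
  have h4 : A (hS.eigenvectorBasis hn i) = (hS.eigenvalues hn i : ℝ) • hS.eigenvectorBasis hn i := h2
  rw [h4, inner_smul_left, real_inner_self_eq_norm_sq, (hS.eigenvectorBasis hn).norm_eq_one i] at h3
  simpa using h3

theorem KZP_det_adjoint {n : ℕ} (A : En n →L[ℝ] En n) :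
    (ContinuousLinearMap.adjoint A).det = A.det := by
  have h : ∀ B : En n →ₗ[ℝ] En n, LinearMap.det (LinearMap.adjoint B) = LinearMap.det B := by
    intro B
    have b := EuclideanSpace.basisFun (Fin n) ℝ
    rw [← LinearMap.det_toMatrix b.toBasis, LinearMap.toMatrix_adjoint, Matrix.det_conjTranspose,
      LinearMap.det_toMatrix]
    simp
  exact h (A : En n →ₗ[ℝ] En n)

theorem KZP_hvf {n : ℕ} {H : PS n → ℝ} (hH : ContDiff ℝ ∞ H) : ContDiff ℝ 1 (hvf H) := by
  have h1 : ContDiff ℝ 1 (fderiv ℝ H) := hH.fderiv_right (by norm_cast)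
  unfold hvf
  refine ContDiff.prodMk ?_ ?_
  · exact (InnerProductSpace.toDual ℝ (En n)).symm.contDiff.comp (h1.clm_comp contDiff_const)
  · exact ((InnerProductSpace.toDual ℝ (En n)).symm.contDiff.comp (h1.clm_comp contDiff_const)).neg

theorem KZP_isUnit {n : ℕ} {A : En n →L[ℝ] En n} (hA : A.det ≠ 0) : IsUnit A := by
  refine ⟨(ContinuousLinearEquiv.toUnit (A.toContinuousLinearEquivOfDetNeZero hA)), ?_⟩
  exact ContinuousLinearMap.coe_toContinuousLinearEquivOfDetNeZero A hA

theorem KZP_det_mul {n : ℕ} (A B : En n →L[ℝ] En n) : (A.comp B).det = A.det * B.det :=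
  LinearMap.det_comp (A : En n →ₗ[ℝ] En n) (B : En n →ₗ[ℝ] En n)

theorem KZP_det_one {n : ℕ} : (1 : En n →L[ℝ] En n).det = 1 := LinearMap.det_id

/-- the chain rule for the flow -/
theorem KZP_chain {n : ℕ} {H : PS n → ℝ} {Φ : ℝ → PS n → PS n} (hΦ : IsHFlow H Φ) (s t : ℝ)
    (x : PS n) (v : PS n) :
    fderiv ℝ (Φ (s + t)) x v = fderiv ℝ (Φ s) (Φ t x) (fderiv ℝ (Φ t) x v) := by
  have h1 : Φ (s + t) = Φ s ∘ Φ t := by
    funext y
    exact hΦ.add s t y
  rw [h1, fderiv_comp x (hΦ.diff s (Φ t x)) (hΦ.diff t x)]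
  rfl

theorem KZP_zero {n : ℕ} {H : PS n → ℝ} {Φ : ℝ → PS n → PS n} (hΦ : IsHFlow H Φ)
    (x : PS n) (v : PS n) : fderiv ℝ (Φ 0) x v = v := by
  have h1 : Φ 0 = id := by
    funext y
    exact hΦ.zero y
  rw [h1, fderiv_id]
  rfl

theorem KZP (h1 : RED_stmt) (h2 : MNK_stmt) (h3 : HES_stmt) : KZP_stmt := by
  intro n hn H Φ hH hΦ z a k ha hk hpos hdet
  set z0 : PS n := Φ (-a - k) z with hz0
  set F : ℝ → En n →L[ℝ] En n := fun u => BB Φ (u + a + k) z0 with hF
  set G : ℝ → En n →L[ℝ] En n := fun u => Hpp H (Φ u z) with hG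
  have hn0 : (n : ℝ) ≠ 0 := by
    have : n ≠ 0 := by omega
    exact_mod_cast this
  have hFc : Continuous F := by
    have h := hΦ.dcont.comp (Continuous.prodMk
      (Continuous.add (Continuous.add continuous_id continuous_const) continuous_const :
        Continuous fun u : ℝ => u + a + k) (continuous_const : Continuous fun _ : ℝ => z0))
    exact (continuous_const.clm_comp (h.clm_comp continuous_const))
  have hvc : Continuous fun y : PS n => fderiv ℝ (hvf H) y :=
    (KZP_hvf hH).continuous_fderiv (by norm_num)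
  have hΦc : Continuous fun u : ℝ => Φ u z :=
    hΦ.cont.comp (Continuous.prodMk continuous_id continuous_const)
  have hGc : Continuous G := by
    have h := hvc.comp hΦc
    exact (continuous_const.clm_comp (h.clm_comp continuous_const))
  have hGpos : ∀ u ∈ Icc (-a) a, 0 < (G u).det := fun u hu => KZP_det_pos (hpos u hu)
  have hdetF : Continuous fun u => (F u).det := ContinuousLinearMap.continuous_det.comp hFc
  have hdetG : Continuous fun u => (G u).det := ContinuousLinearMap.continuous_det.comp hGc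
  have hbase : ∀ u ∈ Icc (-a) a, 0 < |(F u).det| / Real.sqrt (G u).det := fun u hu =>
    div_pos (abs_pos.mpr (hdet u hu)) (Real.sqrt_pos.mpr (hGpos u hu))
  set ψ : ℝ → ℝ := fun u => (|(F u).det| / Real.sqrt (G u).det) ^ ((1 : ℝ) / n) with hψ
  have hψpos : ∀ u ∈ Icc (-a) a, 0 < ψ u := fun u hu => Real.rpow_pos_of_pos (hbase u hu) _
  refine ⟨ψ, ?_, hψpos, ?_⟩
  · refine ContinuousOn.rpow_const ?_ ?_
    · refine ContinuousOn.div (hdetF.abs.continuousOn)
        (Real.continuous_sqrt.comp hdetG).continuousOn ?_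
      intro u hu
      exact (Real.sqrt_pos.mpr (hGpos u hu)).ne'
    · intro u hu
      exact Or.inl (hbase u hu).ne'
  · intro s t hs hst ht
    have hsub : ∀ r ∈ Icc s t, r ∈ Icc (-a) a := fun r hr => ⟨by linarith [hr.1], by linarith [hr.2]⟩
    have hs' : s ∈ Icc (-a) a := hsub s ⟨le_refl _, hst.le⟩
    have ht' : t ∈ Icc (-a) a := hsub t ⟨hst.le, le_refl _⟩
    -- the inverse
    set Fi : ℝ → En n →L[ℝ] En n := fun u => Ring.inverse (F u) with hFi
    have hu : ∀ r ∈ Icc (-a) a, IsUnit (F r) := fun r hr => KZP_isUnit (hdet r hr)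
    have hFiF : ∀ r ∈ Icc (-a) a, ∀ ξ, Fi r (F r ξ) = ξ := by
      intro r hr ξ
      have h := Ring.inverse_mul_cancel (F r) (hu r hr)
      exact congrArg (fun L : En n →L[ℝ] En n => L ξ) h
    have hFFi : ∀ r ∈ Icc (-a) a, ∀ ξ, F r (Fi r ξ) = ξ := by
      intro r hr ξ
      have h := Ring.mul_inverse_cancel (F r) (hu r hr)
      exact congrArg (fun L : En n →L[ℝ] En n => L ξ) h
    have hFic : ContinuousOn Fi (Icc (-a) a) := by
      intro r hr
      obtain ⟨U, hU⟩ := hu r hr
      have h := NormedRing.inverse_continuousAt U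
      rw [hU] at h
      exact (ContinuousAt.comp (g := Ring.inverse) (f := F) h hFc.continuousAt).continuousWithinAt
    set Q : ℝ → En n →L[ℝ] En n := fun r =>
      (Fi r).comp ((G r).comp (ContinuousLinearMap.adjoint (Fi r))) with hQ
    have hQc : ContinuousOn Q (Icc (-a) a) := by
      refine hFic.clm_comp (hGc.continuousOn.clm_comp ?_)
      exact ContinuousLinearMap.adjoint.continuous.comp_continuousOn hFic
    have hQc' : ContinuousOn Q (Icc s t) := hQc.mono hsub
    have hQpos : ∀ r ∈ Icc s t, PosDefOp (Q r) := by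
      intro r hr
      have hG1 := hpos r (hsub r hr)
      refine ⟨?_, ?_⟩
      · intro v w
        show inner ℝ (Fi r (G r (ContinuousLinearMap.adjoint (Fi r) v))) w =
          inner ℝ v (Fi r (G r (ContinuousLinearMap.adjoint (Fi r) w)))
        rw [← ContinuousLinearMap.adjoint_inner_right (Fi r),
          ← ContinuousLinearMap.adjoint_inner_left (Fi r)]
        exact hG1.1 _ _
      · intro v hv
        show 0 < inner ℝ (Fi r (G r (ContinuousLinearMap.adjoint (Fi r) v))) v
        rw [← ContinuousLinearMap.adjoint_inner_right (Fi r)]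
        apply hG1.2
        intro h0
        apply hv
        have h4 : ContinuousLinearMap.adjoint (F r) (ContinuousLinearMap.adjoint (Fi r) v) = v := by
          have h5 := Ring.inverse_mul_cancel (F r) (hu r (hsub r hr))
          have h6 : ContinuousLinearMap.adjoint ((Fi r).comp (F r)) =
              ContinuousLinearMap.adjoint (1 : En n →L[ℝ] En n) := congrArg _ h5
          rw [ContinuousLinearMap.adjoint_comp] at h6
          have h7 := congrArg (fun L : En n →L[ℝ] En n => L v) h6
          have h8 : ContinuousLinearMap.adjoint (1 : En n →L[ℝ] En n) = 1 :=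
            ContinuousLinearMap.adjoint_id
          rw [h8] at h7
          exact h7
        rw [← h4, h0, map_zero]
    set S : En n →L[ℝ] En n := ∫ r in s..t, Q r with hS
    have hMNK := h2 n hn s t Q hst hQc' hQpos
    have hflow : ∀ r, Φ (r + a + k) z0 = Φ r z := by
      intro r
      rw [hz0, ← hΦ.add]
      congr 1
      ring
    have hkey : BB Φ (t - s) (Φ s z) =
        (F t).comp (S.comp (ContinuousLinearMap.adjoint (F s))) := by
      set A : ℝ → PS n →L[ℝ] PS n := fun r => fderiv ℝ (hvf H) (Φ (r + a + k) z0) with hA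
      set Y : ℝ → PS n →L[ℝ] PS n := fun r => fderiv ℝ (Φ (r + a + k)) z0 with hY
      have hA' : ∀ r, A r = fderiv ℝ (hvf H) (Φ r z) := fun r => by
        show fderiv ℝ (hvf H) (Φ (r + a + k) z0) = _
        rw [hflow r]
      have hAc : Continuous A := by
        have h : A = fun r => fderiv ℝ (hvf H) (Φ r z) := funext hA'
        rw [h]
        exact hvc.comp hΦc
      have hAs : ∀ r v w, symp (A r v) w + symp v (A r w) = 0 := fun r v w =>
        h3 n H hH _ v w
      have hYd : ∀ r, HasDerivAt Y ((A r).comp (Y r)) r := by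
        intro r
        have h := hΦ.var z0 (r + (a + k))
        have h' := HasDerivAt.comp_add_const r (a + k) h
        have e1 : Y = fun x => fderiv ℝ (Φ (x + (a + k))) z0 := by
          funext x
          show fderiv ℝ (Φ (x + a + k)) z0 = _
          rw [add_assoc]
        have e2 : (A r).comp (Y r) = (fderiv ℝ (hvf H) (Φ (r + (a + k)) z0)).comp
            (fderiv ℝ (Φ (r + (a + k))) z0) := by
          show (fderiv ℝ (hvf H) (Φ (r + a + k) z0)).comp (fderiv ℝ (Φ (r + a + k)) z0) = _
          rw [add_assoc]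
        rw [e2, e1]
        exact h'
      have hYs : ∀ r v w, symp (Y r v) (Y r w) = symp v w := fun r v w => hΦ.symp_eq _ _ v w
      have hFi' : ∀ r ∈ Icc s t, ∀ ξ, Fi r (Y r (0, ξ)).1 = ξ ∧ (Y r (0, Fi r ξ)).1 = ξ :=
        fun r hr ξ => ⟨hFiF r (hsub r hr) ξ, hFFi r (hsub r hr) ξ⟩
      ext1 η
      set v : PS n := fderiv ℝ (Φ (-s - a - k)) (Φ s z) (0, η) with hv
      have hb : Φ (-s - a - k) (Φ s z) = z0 := by
        rw [← hΦ.add, hz0]
        congr 1
        ring
      have hYv : Y s v = (0, η) := by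
        have h := KZP_chain hΦ (s + a + k) (-s - a - k) (Φ s z) (0, η)
        rw [hb] at h
        have e : s + a + k + (-s - a - k) = 0 := by ring
        rw [e, KZP_zero hΦ] at h
        exact h.symm
      have hYt : Y t v = fderiv ℝ (Φ (t - s)) (Φ s z) (0, η) := by
        have h := KZP_chain hΦ (t - s) (s + a + k) z0 v
        have e : t - s + (s + a + k) = t + a + k := by ring
        rw [e, hflow s] at h
        have h' : Y t v = fderiv ℝ (Φ (t - s)) (Φ s z) (Y s v) := h
        rw [h', hYv]
      have hRED := h1 n A Y s t Fi hAc hAs hYd hYs hst.le hFi' v η hYv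
      have hint : (∫ r in s..t, Fi r (A r (0, ContinuousLinearMap.adjoint (Fi r)
        (ContinuousLinearMap.adjoint ((ContinuousLinearMap.fst ℝ (En n) (En n)).comp
          ((Y s).comp (ContinuousLinearMap.inr ℝ (En n) (En n)))) η))).1) =
          S (ContinuousLinearMap.adjoint (F s) η) := by
        rw [hS, ContinuousLinearMap.intervalIntegral_apply]
        · refine intervalIntegral.integral_congr fun r _ => ?_
          show Fi r (A r (0, ContinuousLinearMap.adjoint (Fi r)
            (ContinuousLinearMap.adjoint (F s) η))).1 =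
            Fi r (G r (ContinuousLinearMap.adjoint (Fi r) (ContinuousLinearMap.adjoint (F s) η)))
          rw [hA' r]
          rfl
        · refine ContinuousOn.intervalIntegrable ?_
          rw [uIcc_of_le hst.le]
          exact hQc'
      rw [hint] at hRED
      show (fderiv ℝ (Φ (t - s)) (Φ s z) (0, η)).1 = F t (S (ContinuousLinearMap.adjoint (F s) η))
      rw [← hYt, hRED]
      rfl
    have hdetBB : (BB Φ (t - s) (Φ s z)).det = (F t).det * (S.det * (F s).det) := by
      rw [hkey, KZP_det_mul, KZP_det_mul, KZP_det_adjoint]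
    have hdetQ : ∀ r ∈ Icc s t, (Q r).det ^ ((1 : ℝ) / n) = (ψ r ^ 2)⁻¹ := by
      intro r hr
      have hr' := hsub r hr
      have e1 : (Q r).det = (Fi r).det * ((G r).det * (Fi r).det) := by
        show ((Fi r).comp ((G r).comp (ContinuousLinearMap.adjoint (Fi r)))).det = _
        rw [KZP_det_mul, KZP_det_mul, KZP_det_adjoint]
      have e2 : (Fi r).det * (F r).det = 1 := by
        rw [← KZP_det_mul]
        have h5 := Ring.inverse_mul_cancel (F r) (hu r hr')
        have h6 : (Fi r).comp (F r) = 1 := h5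
        rw [h6, KZP_det_one]
      have hF0 : (F r).det ≠ 0 := hdet r hr'
      have hG0 := hGpos r hr'
      have e3 : (Q r).det = ((|(F r).det| / Real.sqrt (G r).det) ^ 2)⁻¹ := by
        rw [e1, div_pow, sq_abs, Real.sq_sqrt hG0.le, inv_div]
        have e4 : (Fi r).det = ((F r).det)⁻¹ := eq_inv_of_mul_eq_one_left e2
        rw [e4]
        field_simp
      rw [e3, Real.inv_rpow (by positivity), ← Real.rpow_natCast, ← Real.rpow_mul (hbase r hr').le]
      show _ = (((|(F r).det| / Real.sqrt (G r).det) ^ ((1 : ℝ) / n)) ^ 2)⁻¹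
      rw [← Real.rpow_natCast, ← Real.rpow_mul (hbase r hr').le, mul_comm]
    have hI : (∫ r in s..t, (ψ r ^ 2)⁻¹) = ∫ r in s..t, (Q r).det ^ ((1 : ℝ) / n) := by
      refine intervalIntegral.integral_congr fun r hr => ?_
      rw [uIcc_of_le hst.le] at hr
      exact (hdetQ r hr).symm
    have hle : (∫ r in s..t, (ψ r ^ 2)⁻¹) ≤ |S.det| ^ ((1 : ℝ) / n) := by
      rw [hI]
      exact hMNK.trans ((le_abs_self _).trans (Real.abs_rpow_le_abs_rpow _ _))
    have hψs := hψpos s hs'
    have hψt := hψpos t ht'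
    have hGs := hGpos s hs'
    have hGt := hGpos t ht'
    have hR : (|(BB Φ (t - s) (Φ s z)).det| /
            Real.sqrt ((Hpp H (Φ s z)).det * (Hpp H (Φ t z)).det)) ^ ((1 : ℝ) / n) =
        ψ s * ψ t * |S.det| ^ ((1 : ℝ) / n) := by
      have e1 : |(BB Φ (t - s) (Φ s z)).det| /
            Real.sqrt ((Hpp H (Φ s z)).det * (Hpp H (Φ t z)).det) =
          (|(F s).det| / Real.sqrt (G s).det) * (|(F t).det| / Real.sqrt (G t).det) * |S.det| := by
        show _ / Real.sqrt ((G s).det * (G t).det) = _
        rw [hdetBB, abs_mul, abs_mul, Real.sqrt_mul hGs.le]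
        have h5 := (Real.sqrt_pos.mpr hGs).ne'
        have h6 := (Real.sqrt_pos.mpr hGt).ne'
        field_simp
      rw [e1, Real.mul_rpow (mul_nonneg (hbase s hs').le (hbase t ht').le) (abs_nonneg _),
        Real.mul_rpow (hbase s hs').le (hbase t ht').le]
    rw [hR]
    exact mul_le_mul_of_nonneg_left hle (mul_pos hψs hψt).le

end Pool.Agent.CRO
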