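import Pool.Agent.helper58.CRO.SpecI

/-! # cro:ISV: the volume of a spherical sector -/

open scoped Manifold ContDiff Topology ENNReal
open MeasureTheory Set

noncomputable section

namespace Pool.Agent.CRO

theorem ISV_slice (h1 : ISL_stmt) (m : ℕ) (e : En (m + 1)) (he : ‖e‖ = 1) (T : Set (ℝ × ℝ))
    (hT : MeasurableSet T) (A : Set (En (m + 1)))
    (hA : ∀ q : En (m + 1), q ∈ A ↔ (inner ℝ e q, Real.sqrt (‖q‖ ^ 2 - (inner ℝ e q) ^ 2)) ∈ T) :
    volume A = ∫⁻ t : ℝ, volume {y : En m | (t, ‖y‖) ∈ T} := by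
  have hmap : Measurable (fun q : En (m + 1) => ((inner ℝ e q : ℝ), Real.sqrt (‖q‖ ^ 2 - (inner ℝ e q) ^ 2))) := by
    have h2 : Continuous (fun q : En (m + 1) => ((inner ℝ e q : ℝ), Real.sqrt (‖q‖ ^ 2 - (inner ℝ e q) ^ 2))) := by
      fun_prop
    exact h2.measurable
  have hAe : A = (fun q : En (m + 1) => ((inner ℝ e q : ℝ), Real.sqrt (‖q‖ ^ 2 - (inner ℝ e q) ^ 2))) ⁻¹' T := by
    ext q
    exact hA q
  have hAm : MeasurableSet A := by
    rw [hAe]
    exact hmap hT
  have hF : Measurable (fun q : ℝ × ℝ => (fun t s : ℝ => T.indicator (1 : ℝ × ℝ → ℝ≥0∞) (t, s)) q.1 q.2) :=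
    measurable_one.indicator hT
  have h3 := h1 m e he (fun t s : ℝ => T.indicator (1 : ℝ × ℝ → ℝ≥0∞) (t, s)) hF
  have h4 : ∫⁻ q : En (m + 1), T.indicator (1 : ℝ × ℝ → ℝ≥0∞)
      (inner ℝ e q, Real.sqrt (‖q‖ ^ 2 - (inner ℝ e q) ^ 2)) = volume A := by
    rw [← lintegral_indicator_one hAm]
    apply lintegral_congr
    intro q
    by_cases hq : q ∈ A
    · rw [indicator_of_mem hq, indicator_of_mem ((hA q).1 hq)]
      rfl
    · rw [indicator_of_notMem hq, indicator_of_notMem (fun h => hq ((hA q).2 h))]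
  rw [← h4]
  beta_reduce at h3
  rw [h3]
  apply lintegral_congr
  intro t
  have hm2 : MeasurableSet {y : En m | (t, ‖y‖) ∈ T} := by
    have h5 : Measurable (fun y : En m => (t, ‖y‖)) := by
      have h6 : Continuous (fun y : En m => (t, ‖y‖)) := by fun_prop
      exact h6.measurable
    exact h5 hT
  rw [← lintegral_indicator_one hm2]
  apply lintegral_congr
  intro y
  by_cases hy : (t, ‖y‖) ∈ T
  · rw [indicator_of_mem hy, indicator_of_mem (show y ∈ {y : En m | (t, ‖y‖) ∈ T} from hy)]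
    rfl
  · rw [indicator_of_notMem hy, indicator_of_notMem (show y ∉ {y : En m | (t, ‖y‖) ∈ T} from hy)]

theorem ISV_kap_nonneg (m : ℕ) : 0 ≤ kap m := ENNReal.toReal_nonneg

theorem ISV_ball (m : ℕ) (hm : 1 ≤ m) (r : ℝ) (hr : 0 ≤ r) :
    volume (Metric.ball (0 : En m) r) = ENNReal.ofReal (kap m * r ^ m) := by
  have hne : Nonempty (Fin m) := ⟨⟨0, hm⟩⟩
  have hnt : Nontrivial (En m) := inferInstance
  rw [Measure.addHaar_ball volume (0 : En m) hr, finrank_euclideanSpace_fin, mul_comm (kap m),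
    ENNReal.ofReal_mul (pow_nonneg hr m)]
  congr 1
  unfold kap
  rw [ENNReal.ofReal_toReal]
  exact measure_ball_lt_top.ne

theorem ISV_int (f : ℝ → ℝ) (hf : Continuous f) (a b : ℝ) (hab : a ≤ b) (hn : ∀ t ∈ Ioc a b, 0 ≤ f t) :
    ∫⁻ t in Ioc a b, ENNReal.ofReal (f t) = ENNReal.ofReal (∫ t in a..b, f t) := by
  rw [intervalIntegral.integral_of_le hab, ofReal_integral_eq_lintegral_ofReal]
  · exact (hf.intervalIntegrable a b).1
  · exact (ae_restrict_iff' measurableSet_Ioc).2 (Filter.Eventually.of_forall hn)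

theorem ISV_norm (m : ℕ) (e : En m) (he : ‖e‖ = 1) (q : En m) :
    Real.sqrt ((inner ℝ e q) ^ 2 + Real.sqrt (‖q‖ ^ 2 - (inner ℝ e q) ^ 2) ^ 2) = ‖q‖ := by
  have h1 : |inner ℝ e q| ≤ ‖q‖ := by
    have := abs_real_inner_le_norm e q
    rwa [he, one_mul] at this
  have h2 : (inner ℝ e q) ^ 2 ≤ ‖q‖ ^ 2 := by
    rw [← sq_abs (inner ℝ e q)]
    exact pow_le_pow_left₀ (abs_nonneg _) h1 2
  rw [Real.sq_sqrt (by linarith)]
  have e1 : (inner ℝ e q) ^ 2 + (‖q‖ ^ 2 - (inner ℝ e q) ^ 2) = ‖q‖ ^ 2 := by ring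
  rw [e1, Real.sqrt_sq (norm_nonneg q)]

theorem ISV_lt1 (t s : ℝ) (hs : 0 ≤ s) : Real.sqrt (t ^ 2 + s ^ 2) < 1 ↔ s < Real.sqrt (1 - t ^ 2) := by
  rw [Real.sqrt_lt' one_pos, Real.lt_sqrt hs, one_pow]
  constructor <;> intro h <;> linarith

theorem ISV_lt2 (c t s : ℝ) (hc : 0 < c) (hc1 : c ≤ 1) (ht : 0 < t) (hs : 0 ≤ s) :
    c * Real.sqrt (t ^ 2 + s ^ 2) < t ↔ s < t * (Real.sqrt (1 - c ^ 2) / c) := by
  have hc2 : 0 ≤ 1 - c ^ 2 := by nlinarith
  have ha : 0 ≤ t * (Real.sqrt (1 - c ^ 2) / c) := by positivity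
  rw [← pow_lt_pow_iff_left₀ hs ha two_ne_zero]
  have h1 : c * Real.sqrt (t ^ 2 + s ^ 2) < t ↔ Real.sqrt (t ^ 2 + s ^ 2) < t / c := by
    rw [lt_div_iff₀ hc, mul_comm]
  rw [h1, Real.sqrt_lt' (div_pos ht hc)]
  have h2 : (t * (Real.sqrt (1 - c ^ 2) / c)) ^ 2 = (t / c) ^ 2 - t ^ 2 := by
    rw [mul_pow, div_pow, Real.sq_sqrt hc2]
    field_simp
  rw [h2]
  constructor <;> intro h <;> linarith

theorem ISV (h1 : ISL_stmt) : ISV_stmt := by
  intro n hn e he
  obtain ⟨m, rfl⟩ : ∃ m, n = m + 1 := ⟨n - 1, by omega⟩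
  have hm : 1 ≤ m := by omega
  have hm0 : m ≠ 0 := by omega
  rw [Nat.add_sub_cancel]
  have hk := ISV_kap_nonneg m
  constructor
  · intro c hc hc1
    set a : ℝ := Real.sqrt (1 - c ^ 2) / c with ha
    have ha0 : 0 ≤ a := by positivity
    have hc2 : 0 ≤ 1 - c ^ 2 := by nlinarith
    have hT : MeasurableSet {p : ℝ × ℝ | Real.sqrt (p.1 ^ 2 + p.2 ^ 2) < 1 ∧
        c * Real.sqrt (p.1 ^ 2 + p.2 ^ 2) < p.1} := by
      have hco : Continuous (fun p : ℝ × ℝ => Real.sqrt (p.1 ^ 2 + p.2 ^ 2)) := by fun_prop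
      exact ((isOpen_lt hco continuous_const).inter
        (isOpen_lt (continuous_const.mul hco) continuous_fst)).measurableSet
    rw [ISV_slice h1 m e he _ hT _ (fun q => by
      rw [mem_ofPred_eq, mem_ofPred_eq]
      simp only [ISV_norm (m + 1) e he q])]
    have hpt : (fun t : ℝ => volume {y : En m | (t, ‖y‖) ∈ {p : ℝ × ℝ | Real.sqrt (p.1 ^ 2 + p.2 ^ 2) < 1 ∧
        c * Real.sqrt (p.1 ^ 2 + p.2 ^ 2) < p.1}}) =
        fun t => (Ioc 0 c).indicator (fun t => ENNReal.ofReal (kap m * (t * a) ^ m)) t +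
          (Ioc c 1).indicator (fun t => ENNReal.ofReal (kap m * Real.sqrt (1 - t ^ 2) ^ m)) t := by
      funext t
      have hset : 0 < t → {y : En m | (t, ‖y‖) ∈ {p : ℝ × ℝ | Real.sqrt (p.1 ^ 2 + p.2 ^ 2) < 1 ∧
          c * Real.sqrt (p.1 ^ 2 + p.2 ^ 2) < p.1}} = Metric.ball 0 (min (Real.sqrt (1 - t ^ 2)) (t * a)) := by
        intro ht
        ext y
        rw [mem_ball_zero_iff, lt_min_iff]
        change Real.sqrt (t ^ 2 + ‖y‖ ^ 2) < 1 ∧ c * Real.sqrt (t ^ 2 + ‖y‖ ^ 2) < t ↔ _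
        rw [ISV_lt1 t ‖y‖ (norm_nonneg y), ISV_lt2 c t ‖y‖ hc hc1 ht (norm_nonneg y)]
      rcases le_or_gt t 0 with ht | ht
      · have h2 : {y : En m | (t, ‖y‖) ∈ {p : ℝ × ℝ | Real.sqrt (p.1 ^ 2 + p.2 ^ 2) < 1 ∧
            c * Real.sqrt (p.1 ^ 2 + p.2 ^ 2) < p.1}} = ∅ := by
          apply eq_empty_of_forall_notMem
          intro y hy
          have h3 : c * Real.sqrt (t ^ 2 + ‖y‖ ^ 2) < t := hy.2
          have h4 : 0 ≤ c * Real.sqrt (t ^ 2 + ‖y‖ ^ 2) := by positivity
          linarith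
        rw [h2, measure_empty, indicator_of_notMem (fun h => absurd h.1 (not_lt.2 ht)),
          indicator_of_notMem (fun h => by have := h.1; linarith), add_zero]
      · rw [hset ht]
        have hmin0 : 0 ≤ min (Real.sqrt (1 - t ^ 2)) (t * a) := le_min (Real.sqrt_nonneg _) (by positivity)
        rw [ISV_ball m hm _ hmin0]
        have hsq : (t * a) ^ 2 = (t / c) ^ 2 - t ^ 2 := by
          rw [ha, mul_pow, div_pow, Real.sq_sqrt hc2]
          field_simp
        rcases le_or_gt t c with htc | htc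
        · have h5 : t * a ≤ Real.sqrt (1 - t ^ 2) := by
            apply Real.le_sqrt_of_sq_le
            rw [hsq]
            have h6 : t / c ≤ 1 := (div_le_one hc).2 htc
            have h7 : 0 ≤ t / c := by positivity
            nlinarith
          rw [min_eq_right h5, indicator_of_mem (show t ∈ Ioc 0 c from ⟨ht, htc⟩),
            indicator_of_notMem (fun h => absurd h.1 (not_lt.2 htc)), add_zero]
        · have h5 : Real.sqrt (1 - t ^ 2) ≤ t * a := by
            apply Real.sqrt_le_iff.2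
            refine ⟨by positivity, ?_⟩
            rw [hsq]
            have h6 : 1 ≤ t / c := (one_le_div hc).2 htc.le
            nlinarith
          rw [min_eq_left h5, indicator_of_notMem (fun h => absurd h.2 (not_le.2 htc)), zero_add]
          rcases le_or_gt t 1 with ht1 | ht1
          · rw [indicator_of_mem (show t ∈ Ioc c 1 from ⟨htc, ht1⟩)]
          · rw [indicator_of_notMem (fun h => absurd h.2 (not_le.2 ht1)),
              Real.sqrt_eq_zero_of_nonpos (by nlinarith), zero_pow hm0, mul_zero, ENNReal.ofReal_zero]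
    rw [hpt, lintegral_add_left, lintegral_indicator measurableSet_Ioc, lintegral_indicator measurableSet_Ioc,
      ISV_int (fun t => kap m * (t * a) ^ m) (by fun_prop) 0 c hc.le (fun t ht => by
        have := ht.1
        positivity),
      ISV_int (fun t => kap m * Real.sqrt (1 - t ^ 2) ^ m) (by fun_prop) c 1 hc1 (fun t ht => by positivity)]
    · rw [intervalIntegral.integral_const_mul, intervalIntegral.integral_const_mul]
      have hi1 : ∫ t in (0 : ℝ)..c, (t * a) ^ m = c * Real.sqrt (1 - c ^ 2) ^ m / ((m + 1 : ℕ) : ℝ) := by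
        have e1 : ∀ t : ℝ, (t * a) ^ m = a ^ m * t ^ m := fun t => by rw [mul_pow, mul_comm]
        rw [intervalIntegral.integral_congr (fun t _ => e1 t), intervalIntegral.integral_const_mul, integral_pow,
          zero_pow (Nat.succ_ne_zero m), sub_zero, ha, div_pow]
        push_cast
        field_simp
        ring
      have hM : 0 ≤ MMc (m + 1) c := by
        unfold MMc
        apply intervalIntegral.integral_nonneg hc1
        intro t _
        positivity
      rw [hi1, ← ENNReal.ofReal_add (by positivity)]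
      · unfold SSc MMc
        rw [Nat.add_sub_cancel, mul_add]
      · unfold MMc at hM
        rw [Nat.add_sub_cancel] at hM
        exact mul_nonneg hk hM
    · apply Measurable.indicator _ measurableSet_Ioc
      exact ENNReal.measurable_ofReal.comp (by fun_prop)
  · have hT : MeasurableSet {p : ℝ × ℝ | Real.sqrt (p.1 ^ 2 + p.2 ^ 2) < 1} := by
      apply IsOpen.measurableSet
      exact isOpen_lt (by fun_prop) continuous_const
    have h2 := ISV_slice h1 m e he _ hT (Metric.ball 0 1) (fun q => by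
      rw [mem_ofPred_eq, mem_ball_zero_iff]
      simp only [ISV_norm (m + 1) e he q])
    have hpt : (fun t : ℝ => volume {y : En m | (t, ‖y‖) ∈ {p : ℝ × ℝ | Real.sqrt (p.1 ^ 2 + p.2 ^ 2) < 1}}) =
        fun t => (Ioc (-1) 1).indicator (fun t => ENNReal.ofReal (kap m * Real.sqrt (1 - t ^ 2) ^ m)) t := by
      funext t
      have hset : {y : En m | (t, ‖y‖) ∈ {p : ℝ × ℝ | Real.sqrt (p.1 ^ 2 + p.2 ^ 2) < 1}} =
          Metric.ball 0 (Real.sqrt (1 - t ^ 2)) := by
        ext y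
        rw [mem_ball_zero_iff]
        change Real.sqrt (t ^ 2 + ‖y‖ ^ 2) < 1 ↔ _
        rw [ISV_lt1 t ‖y‖ (norm_nonneg y)]
      rw [hset, ISV_ball m hm _ (Real.sqrt_nonneg _)]
      by_cases ht : t ∈ Ioc (-1 : ℝ) 1
      · rw [indicator_of_mem ht]
      · rw [indicator_of_notMem ht]
        have h3 : 1 - t ^ 2 ≤ 0 := by
          rw [mem_Ioc, not_and_or, not_lt, not_le] at ht
          rcases ht with h | h <;> nlinarith
        rw [Real.sqrt_eq_zero_of_nonpos h3, zero_pow hm0, mul_zero, ENNReal.ofReal_zero]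
    rw [hpt, lintegral_indicator measurableSet_Ioc,
      ISV_int (fun t => kap m * Real.sqrt (1 - t ^ 2) ^ m) (by fun_prop) (-1) 1 (by norm_num)
        (fun t ht => by positivity)] at h2
    have h3 : kap (m + 1) = ∫ t in (-1 : ℝ)..1, kap m * Real.sqrt (1 - t ^ 2) ^ m := by
      have h4 : kap (m + 1) = (volume (Metric.ball (0 : En (m + 1)) 1)).toReal := rfl
      rw [h4, h2, ENNReal.toReal_ofReal]
      apply intervalIntegral.integral_nonneg (by norm_num)
      intro t _
      positivity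
    have hcont : Continuous (fun t : ℝ => Real.sqrt (1 - t ^ 2) ^ m) := by fun_prop
    have h5 : ∫ t in (-1 : ℝ)..0, Real.sqrt (1 - t ^ 2) ^ m = ∫ t in (0 : ℝ)..1, Real.sqrt (1 - t ^ 2) ^ m := by
      have h6 := intervalIntegral.integral_comp_neg (a := 0) (b := 1) (fun t : ℝ => Real.sqrt (1 - t ^ 2) ^ m)
      rw [neg_zero] at h6
      rw [← h6]
      apply intervalIntegral.integral_congr
      intro t _
      simp only [neg_sq]
    rw [h3, intervalIntegral.integral_const_mul,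
      ← intervalIntegral.integral_add_adjacent_intervals (hcont.intervalIntegrable (-1) 0)
        (hcont.intervalIntegrable 0 1), h5]
    unfold MMc
    rw [Nat.add_sub_cancel]
    ring

end Pool.Agent.CRO
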